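import Mathlib

set_option autoImplicit false

namespace Pool.Agent.Results.MP_efe8c5_co.SuspensionHeight

open Finset Matrix

section General

variable {V : Type} [Fintype V] [DecidableEq V]

/-- A magnetic potential on `G` (only its values on adjacent pairs matter). -/
def IsPotential (G : SimpleGraph V) (σ : V → V → ℂ) : Prop :=
  ∀ x y, G.Adj x y → ‖σ x y‖ = 1 ∧ σ y x = (σ x y)⁻¹

/-- The matrix of the magnetic Laplacian, see `lap_mulVec`. -/
noncomputable def lap (G : SimpleGraph V) [DecidableRel G.Adj] (σ : V → V → ℂ) : Matrix V V ℂ :=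
  fun x y => if x = y then (G.degree x : ℂ) else if G.Adj x y then -σ x y else 0

/-- The magnetic Laplacian is `(Δ f)(x) = ∑_{y ∼ x} (f x - σ(x,y) f y)`. -/
theorem lap_mulVec (G : SimpleGraph V) [DecidableRel G.Adj] (σ : V → V → ℂ) (f : V → ℂ) (x : V) :
    (lap G σ *ᵥ f) x = ∑ y ∈ G.neighborFinset x, (f x - σ x y * f y) := by
  rw [Matrix.mulVec, dotProduct, ← add_sum_erase _ _ (mem_univ x), sum_sub_distrib, sum_const,
    G.card_neighborFinset_eq_degree, nsmul_eq_mul, sub_eq_add_neg, ← sum_neg_distrib]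
  congr 1
  · simp [lap]
  · have h1 : ∀ y ∈ univ.erase x, lap G σ x y * f y = if G.Adj x y then -(σ x y * f y) else 0 := by
      intro y hy
      have hne : x ≠ y := fun h => (mem_erase.mp hy).1 h.symm
      unfold lap
      rw [if_neg hne]
      split_ifs
      · ring
      · ring
    rw [sum_congr rfl h1, ← sum_filter]
    refine sum_congr ?_ fun _ _ => rfl
    ext y
    simp only [mem_filter, mem_erase, mem_univ, and_true, SimpleGraph.mem_neighborFinset,
      and_iff_right_iff_imp]
    intro h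
    exact h.ne'

theorem lap_hermitian {G : SimpleGraph V} [DecidableRel G.Adj] {σ : V → V → ℂ}
    (hσ : IsPotential G σ) : (lap G σ).IsHermitian := by
  ext x y
  rw [conjTranspose_apply]
  unfold lap
  by_cases h : x = y
  · subst h
    simp
  · rw [if_neg h, if_neg (fun h' => h h'.symm)]
    by_cases h1 : G.Adj x y
    · rw [if_pos h1, if_pos h1.symm]
      obtain ⟨h2, h3⟩ := hσ x y h1
      rw [h3, star_neg, star_inv₀, neg_inj, RCLike.star_def]
      rw [inv_eq_iff_eq_inv, Complex.inv_def, Complex.normSq_eq_norm_sq, h2]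
      simp
    · rw [if_neg h1, if_neg (fun h' => h1 h'.symm)]
      simp

/-- The smallest eigenvalue of the magnetic Laplacian. -/
noncomputable def lam1 {G : SimpleGraph V} [DecidableRel G.Adj] {σ : V → V → ℂ}
    (hσ : IsPotential G σ) : ℝ := ⨅ i, (lap_hermitian hσ).eigenvalues i

/-- The magneto-spectral height. -/
noncomputable def nu (G : SimpleGraph V) [DecidableRel G.Adj] : ℝ :=
  sSup {r : ℝ | ∃ (σ : V → V → ℂ) (hσ : IsPotential G σ), r = lam1 hσ}

/-- The suspension of `G`: one new vertex `none`, adjacent to all vertices of `G`. -/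
def susp (G : SimpleGraph V) : SimpleGraph (Option V) where
  Adj x y := match x, y with
    | none, none => False
    | none, some _ => True
    | some _, none => True
    | some a, some b => G.Adj a b
  symm := ⟨by
    rintro (_ | a) (_ | b) h
    · exact h
    · trivial
    · trivial
    · exact G.symm.symm _ _ h⟩
  loopless := ⟨by
    rintro (_ | a) h
    · exact h
    · exact G.loopless.irrefl _ h⟩

instance (G : SimpleGraph V) [DecidableRel G.Adj] : DecidableRel (susp G).Adj := by
  rintro (_ | a) (_ | b)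
  · exact isFalse (fun h => h)
  · exact isTrue trivial
  · exact isTrue trivial
  · exact inferInstanceAs (Decidable (G.Adj a b))

/-- The quadratic form of a matrix. -/
noncomputable def form (M : Matrix V V ℂ) (f : V → ℂ) : ℝ :=
  (∑ x, ∑ y, star (f x) * M x y * f y).re

theorem form_eq {M : Matrix V V ℂ} (hM : M.IsHermitian) (f : V → ℂ) :
    form M f = ∑ j, hM.eigenvalues j * ‖∑ x, star (f x) * hM.eigenvectorBasis j x‖ ^ 2 := by
  have hspec : ∀ i k, M i k = ∑ j, (hM.eigenvalues j : ℂ) *
      (hM.eigenvectorBasis j i * star (hM.eigenvectorBasis j k)) := by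
    intro i k
    have h := hM.spectral_theorem
    have h2 := congrFun (congrFun h i) k
    rw [h2, Unitary.conjStarAlgAut_apply, Matrix.mul_apply]
    refine sum_congr rfl fun j _ => ?_
    rw [Matrix.mul_diagonal, star_apply, Matrix.IsHermitian.eigenvectorUnitary_apply,
      Matrix.IsHermitian.eigenvectorUnitary_apply]
    simp only [Function.comp, Complex.coe_algebraMap]
    ring_nf
  unfold form
  have h1 : ∑ x, ∑ y, star (f x) * M x y * f y =
      ∑ j, (hM.eigenvalues j : ℂ) * ((∑ x, star (f x) * hM.eigenvectorBasis j x) *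
        star (∑ x, star (f x) * hM.eigenvectorBasis j x)) := by
    simp_rw [hspec, mul_sum, sum_mul]
    rw [sum_congr rfl fun i _ => sum_comm, sum_comm]
    refine sum_congr rfl fun j _ => ?_
    rw [star_sum, mul_sum]
    refine sum_congr rfl fun i _ => ?_
    rw [mul_sum, mul_sum]
    refine sum_congr rfl fun k _ => ?_
    simp only [star_mul', star_star]
    ring
  rw [h1, Complex.re_sum]
  refine sum_congr rfl fun j _ => ?_
  rw [RCLike.star_def, Complex.mul_conj, Complex.normSq_eq_norm_sq, ← Complex.ofReal_mul,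
    Complex.ofReal_re]

theorem parseval {M : Matrix V V ℂ} (hM : M.IsHermitian) (f : V → ℂ) :
    ∑ j, ‖∑ x, star (f x) * hM.eigenvectorBasis j x‖ ^ 2 = ∑ x, ‖f x‖ ^ 2 := by
  have h3 := hM.eigenvectorBasis.sum_sq_norm_inner_left (WithLp.toLp 2 f)
  have h4 : ‖(WithLp.toLp 2 f : EuclideanSpace ℂ V)‖ ^ 2 = ∑ i, ‖f i‖ ^ 2 := by
    rw [EuclideanSpace.norm_sq_eq]
  rw [h4] at h3
  rw [← h3]
  refine sum_congr rfl fun j _ => ?_
  rw [PiLp.inner_apply]
  congr 2
  refine sum_congr rfl fun i _ => ?_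
  simp [mul_comm]

theorem rayleigh {M : Matrix V V ℂ} (hM : M.IsHermitian) (f : V → ℂ) :
    (⨅ i, hM.eigenvalues i) * ∑ x, ‖f x‖ ^ 2 ≤ form M f := by
  rw [form_eq hM, ← parseval hM f, mul_sum]
  refine sum_le_sum fun j _ => mul_le_mul_of_nonneg_right ?_ (sq_nonneg _)
  exact ciInf_le (Set.finite_range _).bddBelow j

theorem le_of_form {M : Matrix V V ℂ} (hM : M.IsHermitian) [Nonempty V] {c : ℝ}
    (h : ∀ f : V → ℂ, c * ∑ x, ‖f x‖ ^ 2 ≤ form M f) : c ≤ ⨅ i, hM.eigenvalues i := by
  apply le_ciInf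
  intro j
  have h1 := h (fun x => hM.eigenvectorBasis j x)
  have h2 : ∑ x, ‖hM.eigenvectorBasis j x‖ ^ 2 = 1 := by
    have h3 : ‖hM.eigenvectorBasis j‖ ^ 2 = 1 := by
      rw [hM.eigenvectorBasis.orthonormal.1 j]; norm_num
    rw [EuclideanSpace.norm_sq_eq] at h3
    exact h3
  have h4 : form M (fun x => hM.eigenvectorBasis j x) = hM.eigenvalues j := by
    rw [form_eq hM, sum_eq_single j]
    · have h5 : ∑ x, star (hM.eigenvectorBasis j x) * hM.eigenvectorBasis j x = 1 := by
        have h6 : ∀ x, star (hM.eigenvectorBasis j x) * hM.eigenvectorBasis j x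
            = ((‖hM.eigenvectorBasis j x‖ ^ 2 : ℝ) : ℂ) := by
          intro x
          rw [mul_comm, RCLike.star_def, Complex.mul_conj, Complex.normSq_eq_norm_sq]
        simp_rw [h6]
        rw [← Complex.ofReal_sum, h2]
        simp
      rw [h5]
      simp
    · intro k _ hk
      have h5 : inner ℂ (hM.eigenvectorBasis j) (hM.eigenvectorBasis k) = 0 :=
        hM.eigenvectorBasis.orthonormal.2 hk.symm
      rw [PiLp.inner_apply] at h5
      have h6 : ∑ x, star (hM.eigenvectorBasis j x) * hM.eigenvectorBasis k x = 0 := by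
        rw [← h5]
        refine sum_congr rfl fun i _ => ?_
        simp [mul_comm]
      rw [h6]
      simp
    · intro h'; exact absurd (mem_univ _) h'
  rw [h2, h4, mul_one] at h1
  exact h1

end General

section Example

/-- `K_4` on `0,1,2,3` with the pendant vertex `4` attached to `0`. -/
def G : SimpleGraph (Fin 5) where
  Adj i j := (i ≠ j ∧ i < 4 ∧ j < 4) ∨ (i = 0 ∧ j = 4) ∨ (i = 4 ∧ j = 0)
  symm := ⟨by decide⟩
  loopless := ⟨by decide⟩

instance : DecidableRel G.Adj := fun i j => by unfold G; infer_instance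

theorem real_form (a b c d w : ℝ) :
    3 / 5 * (a ^ 2 + b ^ 2 + c ^ 2 + d ^ 2 + w ^ 2) ≤
      (a + b) ^ 2 + (a + c) ^ 2 + (a + d) ^ 2 + (b + c) ^ 2 + (b + d) ^ 2 + (c + d) ^ 2
        + (a + w) ^ 2 := by
  nlinarith [sq_nonneg (w + 5 / 2 * a), sq_nonneg (9 * a + 10 * (b + c + d)),
    sq_nonneg (b + c + d), sq_nonneg (b - c), sq_nonneg (c - d), sq_nonneg (b - d)]

theorem pot : IsPotential G (fun _ _ => -1) := by
  intro x y _
  simp

theorem lap_G : lap G (fun _ _ => -1) =
    !![4, 1, 1, 1, 1; 1, 3, 1, 1, 0; 1, 1, 3, 1, 0; 1, 1, 1, 3, 0; 1, 0, 0, 0, 1] := by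
  have hdeg : ∀ i : Fin 5, G.degree i = ![4, 3, 3, 3, 1] i := by decide
  have hadj : ∀ i j : Fin 5, G.Adj i j ↔ (i ≠ j ∧ i < 4 ∧ j < 4) ∨ (i = 0 ∧ j = 4) ∨ (i = 4 ∧ j = 0) :=
    fun _ _ => Iff.rfl
  ext i j
  unfold lap
  rw [hdeg]
  simp only [hadj]
  fin_cases i <;> fin_cases j <;> simp

theorem lower : 3 / 5 ≤ lam1 pot := by
  apply le_of_form
  intro f
  have h1 := real_form (f 0).re (f 1).re (f 2).re (f 3).re (f 4).re
  have h2 := real_form (f 0).im (f 1).im (f 2).im (f 3).im (f 4).im
  unfold form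
  rw [lap_G]
  simp only [Fin.sum_univ_five, Complex.sq_norm, Complex.normSq_apply]
  simp
  nlinarith [h1, h2]

theorem no_isolated : ∀ x : Fin 5, ∃ y, G.Adj x y := by decide

/-- The test function. -/
noncomputable def tst (σ : Option (Fin 5) → Option (Fin 5) → ℂ) : Option (Fin 5) → ℂ :=
  fun x => if x = some 4 then 1 else if x = some 0 then σ (some 0) (some 4) / 6
    else if x = none then σ none (some 4) / 6 else 0

theorem upper {σ : Option (Fin 5) → Option (Fin 5) → ℂ} (hσ : IsPotential (susp G) σ) :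
    lam1 hσ ≤ 30 / 19 := by
  have hr := rayleigh (lap_hermitian hσ) (tst σ)
  have hdeg : ∀ i : Option (Fin 5), (susp G).degree i =
      (match i with | none => 5 | some i => ![5, 4, 4, 4, 2] i) := by decide
  have a1 : (susp G).Adj (some 4) (some 0) := by decide
  have a2 : (susp G).Adj (some 0) (some 4) := by decide
  have a3 : (susp G).Adj (some 4) none := by decide
  have a4 : (susp G).Adj none (some 4) := by decide
  have a5 : (susp G).Adj none (some 0) := by decide
  have a6 : (susp G).Adj (some 0) none := by decide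
  obtain ⟨n1, i1⟩ := hσ _ _ a2
  obtain ⟨n2, i2⟩ := hσ _ _ a4
  obtain ⟨n3, i3⟩ := hσ _ _ a5
  set p := σ (some 0) (some 4) with hp
  set q := σ none (some 4) with hq
  set r := σ none (some 0) with hr'
  have hnorm : ∑ x, ‖tst σ x‖ ^ 2 = 19 / 18 := by
    rw [Fintype.sum_option, Fin.sum_univ_five]
    simp [tst, ← hp, ← hq, n1, n2]
    norm_num
  have hp0 : p ≠ 0 := by
    intro h; rw [h] at n1; simp at n1
  have hq0 : q ≠ 0 := by
    intro h; rw [h] at n2; simp at n2
  have hform : form (lap (susp G) σ) (tst σ) ≤ 5 / 3 := by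
    have e : ∑ x, ∑ y, star (tst σ x) * lap (susp G) σ x y * tst σ y =
        2 + 5 * (star p * p) / 36 + 5 * (star q * q) / 36 - (p⁻¹ * p) / 6 - (star p * p) / 6
          - (q⁻¹ * q) / 6 - (star q * q) / 6 - (star q * r * p) / 36
          - (star p * r⁻¹ * q) / 36 := by
      simp only [Fintype.sum_option, Fin.sum_univ_five]
      simp [tst, lap, hdeg, a1, a2, a3, a4, a5, a6, i1, i2, i3, ← hp, ← hq, ← hr']
      ring
    have hpp : star p * p = 1 := by
      rw [mul_comm, RCLike.star_def, Complex.mul_conj, Complex.normSq_eq_norm_sq, n1]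
      simp
    have hqq : star q * q = 1 := by
      rw [mul_comm, RCLike.star_def, Complex.mul_conj, Complex.normSq_eq_norm_sq, n2]
      simp
    unfold form
    rw [e, hpp, hqq, inv_mul_cancel₀ hp0, inv_mul_cancel₀ hq0]
    have b1 : ‖star q * r * p‖ = 1 := by
      rw [norm_mul, norm_mul, norm_star, n1, n2, n3]; norm_num
    have b2 : ‖star p * r⁻¹ * q‖ = 1 := by
      rw [norm_mul, norm_mul, norm_star, norm_inv, n1, n2, n3]; norm_num
    have c1 := Complex.abs_re_le_norm (star q * r * p)
    have c2 := Complex.abs_re_le_norm (star p * r⁻¹ * q)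
    rw [b1, abs_le] at c1
    rw [b2, abs_le] at c2
    generalize star q * r * p = z₁ at c1
    generalize star p * r⁻¹ * q = z₂ at c2
    have : (2 + 5 * 1 / 36 + 5 * 1 / 36 - 1 / 6 - 1 / 6 - 1 / 6 - 1 / 6 - z₁ / 36 - z₂ / 36 : ℂ).re
        = 2 + 5 / 36 + 5 / 36 - 4 / 6 - z₁.re / 36 - z₂.re / 36 := by
      simp
      norm_num
    rw [this]
    linarith
  rw [hnorm] at hr
  have h1 : lam1 hσ = ⨅ i, (lap_hermitian hσ).eigenvalues i := rfl
  rw [← h1] at hr
  linarith

/-- The graph `K_4` with a pendant vertex has no isolated vertices, its height is at least `3/5`,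
and the height of its suspension is at most `30/19 < 8/5`. -/
theorem result :
    (∀ x : Fin 5, ∃ y, G.Adj x y) ∧ 3 / 5 ≤ nu G ∧ nu (susp G) ≤ 30 / 19 ∧
    nu (susp G) < nu G + 1 ∧
    ¬ (∀ (V : Type) [Fintype V] [DecidableEq V] [Nonempty V] (H : SimpleGraph V)
      [DecidableRel H.Adj], (∀ x, ∃ y, H.Adj x y) → nu (susp H) = nu H + 1) := by
  have h1 : 3 / 5 ≤ nu G := by
    refine le_csSup_of_le ⟨4, ?_⟩ ⟨_, pot, rfl⟩ lower
    rintro _ ⟨σ, hσ, rfl⟩
    have hr := rayleigh (lap_hermitian hσ) (fun x => if x = 0 then 1 else 0)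
    have h2 : ∑ x : Fin 5, ‖(if x = 0 then (1 : ℂ) else 0)‖ ^ 2 = 1 := by
      simp [Fin.sum_univ_five]
    have h3 : form (lap G σ) (fun x => if x = 0 then (1 : ℂ) else 0) = 4 := by
      unfold form
      have hdeg : G.degree 0 = 4 := by decide
      simp only [Fin.sum_univ_five, lap]
      simp [hdeg]
    rw [h2, h3, mul_one] at hr
    exact hr
  have h2 : nu (susp G) ≤ 30 / 19 := by
    refine csSup_le ⟨_, fun _ _ => -1, fun x y _ => by simp, rfl⟩ ?_
    rintro _ ⟨σ, hσ, rfl⟩
    exact upper hσ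
  have h3 : nu (susp G) < nu G + 1 := by linarith
  refine ⟨no_isolated, h1, h2, h3, fun h => ?_⟩
  have h4 := h (Fin 5) G no_isolated
  rw [h4] at h3
  exact lt_irrefl _ h3

end Example

end Pool.Agent.Results.MP_efe8c5_co.SuspensionHeight
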